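import Pool.Agent.H43Z.Span

set_option autoImplicit false

/-!
# Simultaneously Liouville fields: examples, and the spans of the odd zeta values
-/

open Filter Topology

namespace Pool.Agent.H43Z

open Pool.Agent.Q163.LE Pool.Agent.TH818.SA Pool.Agent.R701.LV

/-- the fields of approximable numbers with unbounded scales -/
theorem sim_LL {q : ℕ → ℕ} (hq : ∀ k, 2 ≤ q k) (hu : ∀ N, ∃ k, N ≤ q k) :
    SimLiouville (LL hq).toSubfield := by
  classical
  intro s hs w q0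
  obtain ⟨h, hh⟩ := Pool.Agent.R701.LV.common (q := q) (fun x : s => (x : ℝ)) (fun x => hs x x.2)
  obtain ⟨k₀, hk₀⟩ := hh ((h + 1) * (w + 1) + 1)
  obtain ⟨k, hk, hkq⟩ := exists_scale hq hu k₀ q0
  obtain ⟨a, b, hb, hbq, hab⟩ := hk₀ k hk
  have hq2 := hq k
  have hqr : (2 : ℝ) ≤ (q k : ℝ) := by exact_mod_cast hq2
  have hq0r : (0 : ℝ) < (q k : ℝ) := by linarith
  have hbr : (0 : ℝ) < b := by exact_mod_cast hb
  have hQ : ((b * q k : ℕ) : ℝ) ≤ (q k : ℝ) ^ (h + 1) := by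
    have h1 : b * q k ≤ q k ^ (h + 1) := by
      rw [pow_succ]
      exact Nat.mul_le_mul_right _ hbq
    exact_mod_cast h1
  have hQpos : (0 : ℝ) < ((b * q k : ℕ) : ℝ) := by
    push_cast
    positivity
  refine ⟨b * q k, ?_, Nat.mul_pos hb (by omega), fun x hx => ⟨a ⟨x, hx⟩ * q k, ?_⟩⟩
  · calc q0 ≤ q k := hkq
      _ = 1 * q k := (one_mul _).symm
      _ ≤ b * q k := Nat.mul_le_mul_right _ hb
  · have h1 := hab ⟨x, hx⟩
    have e : ((b * q k : ℕ) : ℝ) * x - ((a ⟨x, hx⟩ * q k : ℤ) : ℝ) =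
        ((b * q k : ℕ) : ℝ) * (x - a ⟨x, hx⟩ / b) := by
      push_cast
      field_simp
    rw [e, abs_mul, abs_of_pos hQpos, lt_div_iff₀ (by positivity)]
    have h2 : ((b * q k : ℕ) : ℝ) ^ (w + 1) ≤ (q k : ℝ) ^ ((h + 1) * (w + 1)) := by
      rw [pow_mul]
      exact pow_le_pow_left₀ hQpos.le hQ _
    calc ((b * q k : ℕ) : ℝ) * |x - a ⟨x, hx⟩ / b| * ((b * q k : ℕ) : ℝ) ^ w
        = ((b * q k : ℕ) : ℝ) ^ (w + 1) * |x - a ⟨x, hx⟩ / b| := by ring
      _ ≤ (q k : ℝ) ^ ((h + 1) * (w + 1)) * ((q k : ℝ) ^ ((h + 1) * (w + 1) + 1))⁻¹ :=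
          mul_le_mul h2 h1 (abs_nonneg _) (by positivity)
      _ = (q k : ℝ)⁻¹ := by
          rw [pow_succ]
          field_simp
      _ < 1 := inv_lt_one_of_one_lt₀ (by linarith)

/-- a simultaneously Liouville field of transcendence degree continuum -/
theorem exists_continuum : ∃ L : IntermediateField ℚ ℝ,
    Algebra.trdeg ℚ L = Cardinal.continuum ∧ SimLiouville L.toSubfield := by
  refine ⟨LL two_le_qL, trdeg_eq _ fun A => xiL_apr A, sim_LL two_le_qL fun N => ⟨N, ?_⟩⟩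
  have h1 : N < 2 ^ N := Nat.lt_two_pow_self
  have h2 : N ≤ eL N := by
    have := eL_add 0 N
    rw [Nat.zero_add] at this
    omega
  rw [qL]
  exact h1.le.trans (Nat.pow_le_pow_right (by norm_num) h2)

/-- every Liouville number lies in a simultaneously Liouville field -/
theorem liouville_mem {ξ : ℝ} (hξ : Liouville ξ) : ∃ F : Subfield ℝ, SimLiouville F ∧ ξ ∈ F := by
  have hirr := hξ.irrational
  choose a b hb1 hne hlt using hξ
  set q : ℕ → ℕ := fun k => (b k).natAbs with hqdef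
  have hqb : ∀ k, ((q k : ℕ) : ℤ) = b k := fun k => Int.natAbs_of_nonneg (by have := hb1 k; omega)
  have hqbr : ∀ k, ((q k : ℕ) : ℝ) = (b k : ℝ) := fun k => by
    rw [← hqb k]; push_cast; rfl
  have hq2 : ∀ k, 2 ≤ q k := fun k => by have := hb1 k; have := hqb k; omega
  have hlt' : ∀ k, |ξ - (a k : ℝ) / q k| < 1 / (q k : ℝ) ^ k := fun k => by
    rw [hqbr]; exact hlt k
  refine ⟨(LL hq2).toSubfield, sim_LL hq2 ?_, ?_⟩
  · -- the denominators are unbounded
    by_contra hcon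
    push Not at hcon
    obtain ⟨N, hN⟩ := hcon
    -- all denominators divide `N !`
    have hNf : 0 < N.factorial := Nat.factorial_pos N
    have hNr : (0 : ℝ) < (N.factorial : ℝ) := by exact_mod_cast hNf
    have hint : ∀ k, ∃ m : ℤ, |(N.factorial : ℝ) * ξ - m| < N.factorial / (2 : ℝ) ^ k := by
      intro k
      obtain ⟨c, hc⟩ := Nat.dvd_factorial (by have := hq2 k; omega : 0 < q k) (hN k).le
      refine ⟨a k * c, ?_⟩
      have hqpos : (0 : ℝ) < (q k : ℝ) := by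
        have := hq2 k
        exact_mod_cast (by omega : 0 < q k)
      have e : (N.factorial : ℝ) * ξ - ((a k * c : ℤ) : ℝ) =
          N.factorial * (ξ - (a k : ℝ) / q k) := by
        rw [hc]
        push_cast
        field_simp
      rw [e, abs_mul, abs_of_pos hNr, div_eq_mul_inv]
      refine mul_lt_mul_of_pos_left (lt_of_lt_of_le (hlt' k) ?_) hNr
      rw [one_div]
      refine inv_anti₀ (by positivity) (pow_le_pow_left₀ (by norm_num) ?_ k)
      exact_mod_cast hq2 k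
    -- the distance of `N ! ξ` from the nearest integer is zero
    have h0 : |(N.factorial : ℝ) * ξ - round ((N.factorial : ℝ) * ξ)| = 0 := by
      refine le_antisymm ?_ (abs_nonneg _)
      have hlim : Tendsto (fun k : ℕ => (N.factorial : ℝ) / (2 : ℝ) ^ k) atTop (𝓝 0) := by
        have h1 := (tendsto_pow_atTop_nhds_zero_of_lt_one (by norm_num : (0 : ℝ) ≤ 1 / 2)
          (by norm_num)).const_mul (N.factorial : ℝ)
        rw [mul_zero] at h1
        refine h1.congr fun k => ?_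
        rw [one_div, inv_pow, div_eq_mul_inv]
      refine ge_of_tendsto' hlim fun k => ?_
      obtain ⟨m, hm⟩ := hint k
      exact (round_le _ m).trans hm.le
    rw [abs_eq_zero, sub_eq_zero] at h0
    refine hirr ⟨(round ((N.factorial : ℝ) * ξ) : ℚ) / N.factorial, ?_⟩
    push_cast
    rw [← h0]
    field_simp
  · refine ⟨1, fun κ => ⟨κ, fun k hk => ⟨a k, q k, ?_, ?_, ?_⟩⟩⟩
    · have := hq2 k
      omega
    · rw [pow_one]
    · refine (hlt' k).le.trans ?_
      have h1 : (1 : ℝ) ≤ q k := by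
        have := hq2 k
        exact_mod_cast (by omega : 1 ≤ q k)
      rw [one_div]
      exact inv_anti₀ (by positivity) (pow_le_pow_right₀ h1 hk)

/-- the counting function is eventually positive and `log log` is unbounded -/
theorem good_s (C : ℝ) : ∀ᶠ s : ℕ in atTop, C ≤ (1 / 2000) * Real.log (Real.log s) ∧
    0 < Real.sqrt (s * Real.log (Real.log s) / Real.log s) := by
  have h1 : Tendsto (fun s : ℕ => Real.log (Real.log s)) atTop atTop :=
    Real.tendsto_log_atTop.comp (Real.tendsto_log_atTop.comp tendsto_natCast_atTop_atTop)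
  have h2 : Tendsto (fun s : ℕ => Real.log s) atTop atTop :=
    Real.tendsto_log_atTop.comp tendsto_natCast_atTop_atTop
  filter_upwards [h1.eventually_ge_atTop (2000 * C), h1.eventually_gt_atTop 0,
    h2.eventually_gt_atTop 0, eventually_gt_atTop 0] with s a b c d
  refine ⟨by linarith, Real.sqrt_pos.2 ?_⟩
  have d' : (0 : ℝ) < s := by exact_mod_cast d
  positivity

/-- the numbers `ζ(i)`, `i` odd, `3 ≤ i ≤ s` -/
noncomputable def zs (s : ℕ) : Set ℝ :=
  {x | ∃ i : ℕ, 3 ≤ i ∧ i ≤ s ∧ Odd i ∧ x = ∑' n : ℕ, 1 / ((n : ℝ) + 1) ^ i}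

theorem zs_finite (s : ℕ) : (zs s).Finite := by
  refine ((Set.finite_Iic s).image fun i => ∑' n : ℕ, 1 / ((n : ℝ) + 1) ^ i).subset ?_
  rintro x ⟨i, _, h2, _, rfl⟩
  exact ⟨i, h2, rfl⟩

/-- the dimension of the span of the odd zeta values -/
theorem span_dim : ∃ s0 : ℕ, ∀ s ≥ s0, ∀ F : Subfield ℝ, SimLiouville F →
    (1 / 2000) * Real.log (Real.log s) < Module.finrank F (Submodule.span F (zs s)) := by
  obtain ⟨s0, hs0⟩ := t_subF
  obtain ⟨s1, hs1⟩ := eventually_atTop.1 (good_s 1)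
  refine ⟨max s0 s1, fun s hs F hF => ?_⟩
  have h1 := hs0 s ((le_max_left _ _).trans hs) F hF
  obtain ⟨h2, h3⟩ := hs1 s ((le_max_right _ _).trans hs)
  haveI : FiniteDimensional F (Submodule.span F (zs s)) :=
    FiniteDimensional.span_of_finite F (zs_finite s)
  by_contra hcon
  push Not at hcon
  obtain ⟨D, hD⟩ : ∃ D, D = ⌊(1 / 2000) * Real.log (Real.log s)⌋₊ := ⟨_, rfl⟩
  have hD1 : 1 ≤ D := by
    rw [hD, Nat.one_le_floor_iff]
    exact h2
  have hD2 : (D : ℝ) ≤ (1 / 2000) * Real.log (Real.log s) := by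
    rw [hD]
    exact Nat.floor_le (by linarith)
  have hD3 : Module.finrank F (Submodule.span F (zs s)) ≤ D := by
    rw [hD]
    exact Nat.le_floor hcon
  have h4 := h1 D hD1 hD2 (Submodule.span F (zs s)) inferInstance hD3
  have h5 : {i : ℕ | 3 ≤ i ∧ i ≤ s ∧ Odd i ∧ (∑' n : ℕ, 1 / ((n : ℝ) + 1) ^ i) ∉
      Submodule.span F (zs s)} = ∅ := by
    rw [Set.eq_empty_iff_forall_notMem]
    rintro i ⟨a1, a2, a3, a4⟩
    exact a4 (Submodule.subset_span ⟨i, a1, a2, a3, rfl⟩)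
  rw [h5, Set.ncard_empty, Nat.cast_zero] at h4
  have hDr : (0 : ℝ) < D := by exact_mod_cast hD1
  have h6 : 0 < (1 / 2000) / D * Real.sqrt (s * Real.log (Real.log s) / Real.log s) := by
    positivity
  linarith

/-- infinitely many odd zeta values are outside a given finite-dimensional space -/
theorem infinite_outside {F : Subfield ℝ} (hF : SimLiouville F) (V : Submodule F ℝ)
    (hV : FiniteDimensional F V) :
    {i : ℕ | 3 ≤ i ∧ Odd i ∧ (∑' n : ℕ, 1 / ((n : ℝ) + 1) ^ i) ∉ V}.Infinite := by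
  classical
  intro hfin
  -- enlarge `V` by the finitely many values outside `V`
  obtain ⟨W, hW⟩ : ∃ W, W = V ⊔ Submodule.span F
      ((fun i : ℕ => ∑' n : ℕ, 1 / ((n : ℝ) + 1) ^ i) ''
        {i : ℕ | 3 ≤ i ∧ Odd i ∧ (∑' n : ℕ, 1 / ((n : ℝ) + 1) ^ i) ∉ V}) := ⟨_, rfl⟩
  haveI : FiniteDimensional F (Submodule.span F
      ((fun i : ℕ => ∑' n : ℕ, 1 / ((n : ℝ) + 1) ^ i) ''
        {i : ℕ | 3 ≤ i ∧ Odd i ∧ (∑' n : ℕ, 1 / ((n : ℝ) + 1) ^ i) ∉ V})) :=
    FiniteDimensional.span_of_finite F (hfin.image _)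
  haveI hWf : FiniteDimensional F W := by
    rw [hW]
    infer_instance
  obtain ⟨s0, hs0⟩ := t_subF
  obtain ⟨s1, hs1⟩ := eventually_atTop.1 (good_s ((Module.finrank F W + 1 : ℕ) : ℝ))
  obtain ⟨h2, h3⟩ := hs1 (max s0 s1) (le_max_right _ _)
  have h4 := hs0 (max s0 s1) (le_max_left _ _) F hF (Module.finrank F W + 1) (by omega) h2 W hWf
    (by omega)
  have h5 : {i : ℕ | 3 ≤ i ∧ i ≤ max s0 s1 ∧ Odd i ∧
      (∑' n : ℕ, 1 / ((n : ℝ) + 1) ^ i) ∉ W} = ∅ := by
    rw [Set.eq_empty_iff_forall_notMem]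
    rintro i ⟨a1, a2, a3, a4⟩
    apply a4
    rw [hW]
    by_cases hi : (∑' n : ℕ, 1 / ((n : ℝ) + 1) ^ i) ∈ V
    · exact Submodule.mem_sup_left hi
    · exact Submodule.mem_sup_right (Submodule.subset_span ⟨i, ⟨a1, a3, hi⟩, rfl⟩)
  rw [h5, Set.ncard_empty, Nat.cast_zero] at h4
  have h6 : 0 < (1 / 2000) / ((Module.finrank F W + 1 : ℕ) : ℝ) *
      Real.sqrt ((max s0 s1 : ℕ) * Real.log (Real.log (max s0 s1 : ℕ)) /
        Real.log (max s0 s1 : ℕ)) := by
    have : (0 : ℝ) < ((Module.finrank F W + 1 : ℕ) : ℝ) := by positivity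
    positivity
  linarith

end Pool.Agent.H43Z
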