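import Pool.Agent.TH818.SA.Sub
import Pool.Agent.Q163.LE.Sim
import Pool.Agent.R701.LV.Liou

set_option autoImplicit false

/-!
# Odd zeta values outside finite-dimensional spaces over simultaneously Liouville fields
-/

open Filter Topology

namespace Pool.Agent.H43Z

open Pool.Agent.Q163.LE Pool.Agent.TH818.SA

/-- finitely many elements of a space of dimension `≤ D` over a simultaneously Liouville field are
simultaneously approximable with the exponent `1 / (D + 1)` -/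
theorem sim_subF {F : Subfield ℝ} (hF : SimLiouville F) (V : Submodule F ℝ)
    [FiniteDimensional F V] (D : ℕ) (hD : Module.finrank F V ≤ D)
    (J : Finset ℕ) (x : ℕ → ℝ) (hx : ∀ i ∈ J, x i ∈ V) (q0 : ℕ) :
    ∃ q : ℕ, q0 ≤ q ∧ ∀ i ∈ J, ∃ p : ℤ, |(q : ℝ) * x i - p| < (q : ℝ) ^ (-(1 / ((D : ℝ) + 1))) := by
  classical
  let b := Module.finBasis F V
  -- the coefficients
  have h1 : ∀ i, ∃ c : Fin (Module.finrank F V) → F, i ∈ J →
      x i = ∑ a, (c a : ℝ) * ((b a : V) : ℝ) := by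
    intro i
    by_cases hi : i ∈ J
    · refine ⟨fun a => b.repr ⟨x i, hx i hi⟩ a, fun _ => ?_⟩
      have h2 := b.sum_repr ⟨x i, hx i hi⟩
      have h3 := congrArg (Submodule.subtype V) h2
      rw [map_sum] at h3
      simp only [Submodule.subtype_apply, map_smul] at h3
      refine h3.symm.trans ?_
      refine Finset.sum_congr rfl fun a _ => ?_
      rw [Subfield.smul_def, smul_eq_mul]
    · exact ⟨0, fun h => absurd h hi⟩
  choose c hc using h1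
  -- the sizes
  set M : ℝ := ∑ a, |((b a : V) : ℝ)| with hM
  have hM0 : 0 ≤ M := Finset.sum_nonneg fun _ _ => abs_nonneg _
  set N : ℝ := ∑ i ∈ J, ∑ a, (|(c i a : ℝ)| + 1) with hN
  have hN0 : 0 ≤ N := Finset.sum_nonneg fun _ _ => Finset.sum_nonneg fun _ _ => by positivity
  have hcN : ∀ i ∈ J, ∑ a, (|(c i a : ℝ)| + 1) ≤ N := fun i hi =>
    Finset.single_le_sum (f := fun i => ∑ a, (|(c i a : ℝ)| + 1))
      (fun _ _ => Finset.sum_nonneg fun _ _ => by positivity) hi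
  set S : ℝ := N + M + 1 with hS
  have hS1 : 1 ≤ S := by rw [hS]; linarith
  -- the simultaneous approximation of the coefficients
  set s : Finset ℝ := (J ×ˢ Finset.univ).image
    (fun z : ℕ × Fin (Module.finrank F V) => (c z.1 z.2 : ℝ)) with hs
  have hsF : ∀ y ∈ s, y ∈ F := by
    intro y hy
    obtain ⟨z, _, rfl⟩ := Finset.mem_image.1 hy
    exact (c z.1 z.2).2
  obtain ⟨q, hqa, hq1, hq2⟩ := hF s hsF ((D + 3) * D + (D + 2)) (max q0 (⌈S ^ (D + 1)⌉₊ + 1))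
  have hqq0 : q0 ≤ q := (le_max_left _ _).trans hqa
  have hqS : S ^ (D + 1) < q := by
    have h2 : ⌈S ^ (D + 1)⌉₊ + 1 ≤ q := (le_max_right _ _).trans hqa
    refine lt_of_le_of_lt (Nat.le_ceil _) ?_
    exact_mod_cast (by omega : ⌈S ^ (D + 1)⌉₊ < q)
  have hq1r : (1 : ℝ) ≤ q := by exact_mod_cast hq1
  have hq0r : (0 : ℝ) < q := by linarith
  -- Dirichlet's theorem for the basis
  obtain ⟨Q, hQ⟩ : ∃ Q : ℕ, Q = q ^ (D + 3) := ⟨_, rfl⟩
  have hQ1 : 1 ≤ Q := by rw [hQ]; exact Nat.one_le_pow _ _ hq1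
  have hQr : (Q : ℝ) = (q : ℝ) ^ (D + 3) := by rw [hQ]; push_cast; rfl
  obtain ⟨t, ht1, ht2, ht3⟩ := dirichlet_sim (Module.finrank F V) (fun a => ((b a : V) : ℝ)) Q hQ1
  have ht1r : (1 : ℝ) ≤ t := by exact_mod_cast ht1
  have ht0r : (0 : ℝ) < t := by linarith
  have htQ : (t : ℝ) ≤ (q : ℝ) ^ ((D + 3) * D) := by
    have g1 : t ≤ Q ^ D := ht2.trans (Nat.pow_le_pow_right hQ1 hD)
    calc (t : ℝ) ≤ (Q : ℝ) ^ D := by exact_mod_cast g1
      _ = (q : ℝ) ^ ((D + 3) * D) := by rw [hQr, ← pow_mul]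
  choose p hp using ht3
  refine ⟨q * t, ?_, fun i hi => ?_⟩
  · calc q0 ≤ q * 1 := by omega
      _ ≤ q * t := Nat.mul_le_mul_left q ht1
  have hk : ∀ a, ∃ k : ℤ, |(q : ℝ) * (c i a : ℝ) - k| < 1 / (q : ℝ) ^ ((D + 3) * D + (D + 2)) :=
    fun a => hq2 _ (Finset.mem_image.2 ⟨(i, a), Finset.mem_product.2 ⟨hi, Finset.mem_univ a⟩, rfl⟩)
  choose k hk using hk
  refine ⟨∑ a, k a * p a, ?_⟩
  have e1 : ((q * t : ℕ) : ℝ) * x i - ((∑ a, k a * p a : ℤ) : ℝ) =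
      ∑ a, ((k a : ℝ) * ((t : ℝ) * ((b a : V) : ℝ) - p a)) +
        t * ∑ a, ((q : ℝ) * (c i a : ℝ) - k a) * ((b a : V) : ℝ) := by
    rw [hc i hi]
    push_cast
    rw [Finset.mul_sum, Finset.mul_sum, ← Finset.sum_add_distrib, ← Finset.sum_sub_distrib]
    refine Finset.sum_congr rfl fun a _ => ?_
    ring
  have hw : (0 : ℝ) < (q : ℝ) ^ ((D + 3) * D + (D + 2)) := by positivity
  have hle1 : 1 / (q : ℝ) ^ ((D + 3) * D + (D + 2)) ≤ 1 := by
    rw [div_le_one hw]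
    exact one_le_pow₀ hq1r
  have hkb : ∀ a, |(k a : ℝ)| ≤ (q : ℝ) * (|(c i a : ℝ)| + 1) := by
    intro a
    have h6 : |(k a : ℝ)| ≤ |(q : ℝ) * (c i a : ℝ)| + |(q : ℝ) * (c i a : ℝ) - k a| := by
      have h7 := abs_sub ((q : ℝ) * (c i a : ℝ)) ((q : ℝ) * (c i a : ℝ) - k a)
      rwa [sub_sub_cancel] at h7
    rw [abs_mul, Nat.abs_cast] at h6
    have h7 := hk a
    nlinarith [abs_nonneg (c i a : ℝ)]
  have f1 : |∑ a, ((k a : ℝ) * ((t : ℝ) * ((b a : V) : ℝ) - p a))| ≤ N / (q : ℝ) ^ (D + 2) := by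
    calc |∑ a, ((k a : ℝ) * ((t : ℝ) * ((b a : V) : ℝ) - p a))|
        ≤ ∑ a, ((q : ℝ) * (|(c i a : ℝ)| + 1)) * (1 / Q) := by
          refine (Finset.abs_sum_le_sum_abs _ _).trans (Finset.sum_le_sum fun a _ => ?_)
          rw [abs_mul]
          exact mul_le_mul (hkb a) (hp a).le (abs_nonneg _) (by positivity)
      _ = (q : ℝ) * (∑ a, (|(c i a : ℝ)| + 1)) * (1 / Q) := by
          rw [← Finset.sum_mul, ← Finset.mul_sum]
      _ ≤ (q : ℝ) * N * (1 / Q) := by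
          have := hcN i hi
          gcongr
      _ = N / (q : ℝ) ^ (D + 2) := by
          rw [hQr, pow_succ]
          field_simp
  have f2 : |(t : ℝ) * ∑ a, ((q : ℝ) * (c i a : ℝ) - k a) * ((b a : V) : ℝ)| ≤
      M / (q : ℝ) ^ (D + 2) := by
    rw [abs_mul, abs_of_pos ht0r]
    have g1 : |∑ a, ((q : ℝ) * (c i a : ℝ) - k a) * ((b a : V) : ℝ)| ≤
        1 / (q : ℝ) ^ ((D + 3) * D + (D + 2)) * M := by
      refine (Finset.abs_sum_le_sum_abs _ _).trans ?_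
      rw [hM, Finset.mul_sum]
      refine Finset.sum_le_sum fun a _ => ?_
      rw [abs_mul]
      exact mul_le_mul_of_nonneg_right (hk a).le (abs_nonneg _)
    calc (t : ℝ) * |∑ a, ((q : ℝ) * (c i a : ℝ) - k a) * ((b a : V) : ℝ)|
        ≤ (q : ℝ) ^ ((D + 3) * D) * (1 / (q : ℝ) ^ ((D + 3) * D + (D + 2)) * M) :=
          mul_le_mul htQ g1 (abs_nonneg _) (by positivity)
      _ = M / (q : ℝ) ^ (D + 2) := by
          rw [pow_add]
          field_simp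
  have e2 : |((q * t : ℕ) : ℝ) * x i - ((∑ a, k a * p a : ℤ) : ℝ)| ≤ S / (q : ℝ) ^ (D + 2) := by
    rw [e1]
    refine (abs_add_le _ _).trans ((add_le_add f1 f2).trans ?_)
    rw [← add_div]
    apply div_le_div_of_nonneg_right _ (by positivity)
    rw [hS]
    linarith
  refine lt_of_le_of_lt e2 ?_
  -- comparison
  have hqt : (0 : ℝ) < ((q * t : ℕ) : ℝ) := by
    push_cast
    positivity
  have hSq : 0 < S / (q : ℝ) ^ (D + 2) := by positivity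
  have e3 : (S / (q : ℝ) ^ (D + 2)) ^ (D + 1) < (((q * t : ℕ) : ℝ))⁻¹ := by
    rw [div_pow, div_lt_iff₀ (by positivity), ← div_eq_inv_mul, lt_div_iff₀ hqt]
    calc S ^ (D + 1) * ((q * t : ℕ) : ℝ) ≤ S ^ (D + 1) * ((q : ℝ) * (q : ℝ) ^ ((D + 3) * D)) := by
          push_cast
          gcongr
      _ < q * ((q : ℝ) * (q : ℝ) ^ ((D + 3) * D)) := mul_lt_mul_of_pos_right hqS (by positivity)
      _ = ((q : ℝ) ^ (D + 2)) ^ (D + 1) := by ring
  have e4 : S / (q : ℝ) ^ (D + 2) =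
      ((S / (q : ℝ) ^ (D + 2)) ^ (D + 1)) ^ (1 / ((D : ℝ) + 1)) := by
    rw [← Real.rpow_natCast (S / (q : ℝ) ^ (D + 2)), ← Real.rpow_mul hSq.le]
    push_cast
    rw [mul_one_div_cancel (by positivity), Real.rpow_one]
  rw [e4]
  have e5 : ((q * t : ℕ) : ℝ) ^ (-(1 / ((D : ℝ) + 1))) =
      (((q * t : ℕ) : ℝ)⁻¹) ^ (1 / ((D : ℝ) + 1)) := by
    rw [Real.rpow_neg hqt.le, Real.inv_rpow hqt.le]
  rw [e5]
  exact Real.rpow_lt_rpow (pow_nonneg hSq.le _) e3 (by positivity)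

/-- **Odd zeta values outside finite-dimensional spaces over simultaneously Liouville fields.** -/
theorem t_subF : ∃ s0 : ℕ, ∀ s ≥ s0, ∀ F : Subfield ℝ, SimLiouville F → ∀ D : ℕ, 1 ≤ D →
    (D : ℝ) ≤ (1 / 2000) * Real.log (Real.log s) →
    ∀ V : Submodule F ℝ, FiniteDimensional F V → Module.finrank F V ≤ D →
    (1 / 2000) / D * Real.sqrt (s * Real.log (Real.log s) / Real.log s) ≤
      (Set.ncard {i : ℕ | 3 ≤ i ∧ i ≤ s ∧ Odd i ∧ (∑' n : ℕ, 1 / ((n : ℝ) + 1) ^ i) ∉ V} : ℝ) := by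
  classical
  obtain ⟨s0, hs0⟩ := t_final
  refine ⟨s0, fun s hs F hF D hD hDL V hV hVD => ?_⟩
  have hDr : (1 : ℝ) ≤ D := by exact_mod_cast hD
  have h1 : ((D + 1 : ℕ) : ℝ) ≤ (1 / 1000) * Real.log (Real.log s) := by
    push_cast
    linarith
  obtain ⟨q0, hq0⟩ := hs0 s hs (D + 1) (by omega) h1
  obtain ⟨J, hJ⟩ : ∃ J : Finset ℕ, J = (Finset.Icc 3 s).filter (fun i => Odd i ∧
    (∑' n : ℕ, 1 / ((n : ℝ) + 1) ^ i) ∈ V) := ⟨_, rfl⟩
  obtain ⟨q, hqq0, hq⟩ := sim_subF hF V D hVD J (fun i => ∑' n : ℕ, 1 / ((n : ℝ) + 1) ^ i)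
    (fun i hi => by
      rw [hJ, Finset.mem_filter] at hi
      exact hi.2.2) q0
  have h2 := hq0 q hqq0
  have h3 : (1 / 2000) / D * Real.sqrt (s * Real.log (Real.log s) / Real.log s) ≤
      (1 / 1000) / ((D + 1 : ℕ) : ℝ) * Real.sqrt (s * Real.log (Real.log s) / Real.log s) := by
    apply mul_le_mul_of_nonneg_right _ (Real.sqrt_nonneg _)
    push_cast
    rw [div_le_div_iff₀ (by positivity) (by positivity)]
    linarith
  refine (h3.trans h2).trans ?_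
  have hfin : {i : ℕ | 3 ≤ i ∧ i ≤ s ∧ Odd i ∧ (∑' n : ℕ, 1 / ((n : ℝ) + 1) ^ i) ∉ V}.Finite :=
    (Set.finite_Iic s).subset fun i hi => hi.2.1
  have hsub : {i : ℕ | 3 ≤ i ∧ i ≤ s ∧ Odd i ∧ ∀ p : ℤ, (q : ℝ) ^ (-(1 / ((D + 1 : ℕ) : ℝ))) ≤
      |(q : ℝ) * (∑' n : ℕ, 1 / ((n : ℝ) + 1) ^ i) - p|} ⊆
      {i : ℕ | 3 ≤ i ∧ i ≤ s ∧ Odd i ∧ (∑' n : ℕ, 1 / ((n : ℝ) + 1) ^ i) ∉ V} := by
    rintro i ⟨a1, a2, a3, a4⟩
    refine ⟨a1, a2, a3, fun hmem => ?_⟩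
    have hiJ : i ∈ J := by
      rw [hJ, Finset.mem_filter, Finset.mem_Icc]
      exact ⟨⟨a1, a2⟩, a3, hmem⟩
    obtain ⟨p, hp⟩ := hq i hiJ
    have h4 := a4 p
    push_cast at h4
    linarith
  exact_mod_cast Set.ncard_le_ncard hsub hfin

end Pool.Agent.H43Z
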